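import Pool.Agent.Lib.SmNH.I.DefsH
import Pool.Agent.Lib.SmNH.I.Core.Many
import Pool.Agent.Lib.SmN.I.Many

/-!
HEIGHTS over SMITH-U, block I: the rigid towers over a grid (`DefsH`) as data of the generic grid theorem, the
number of colours.
-/

set_option autoImplicit false

open Finset

namespace Pool.Agent.SmNH

open Pool.Agent.SmN Pool.Agent.SmN.IT Pool.Agent.SmA

section loc

variable {G V V1 Pl : Type*} [Group G] [AddCommGroup V] [DistribMulAction G V]
  [AddCommGroup V1] [Module (ZMod 2) V1] {S : Sys G V V1 Pl}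

/-- The elements of `V` which are mapped to the finite group `A` by the multiplication with `2^k`. -/
theorem card_half (hS : S.Ok) (k : ℕ) (A : AddSubgroup V) [hA : Finite A] :
    {Q : V | (2 : ℕ) ^ k • Q ∈ A}.Finite ∧
      {Q : V | (2 : ℕ) ^ k • Q ∈ A}.ncard ≤ Nat.card V1 ^ k * Nat.card A := by
  classical
  obtain ⟨h1, h2⟩ := card_tor hS k
  have : Finite {Q : V | (2 : ℕ) ^ k • Q = 0} := h1
  -- a section of the multiplication with `2^k`
  let sec : A → V := fun a => if h : ∃ Q, (2 : ℕ) ^ k • Q = (a : V) then h.choose else 0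
  have hsec : ∀ a : A, (∃ Q, (2 : ℕ) ^ k • Q = (a : V)) → (2 : ℕ) ^ k • sec a = (a : V) := by
    intro a h
    have e : sec a = h.choose := dif_pos h
    rw [e]
    exact h.choose_spec
  let J : {Q : V | (2 : ℕ) ^ k • Q ∈ A} → {Q : V | (2 : ℕ) ^ k • Q = 0} × A := fun Q =>
    (⟨Q.1 - sec ⟨(2 : ℕ) ^ k • Q.1, Q.2⟩, by
      change (2 : ℕ) ^ k • (_ - _) = 0
      rw [smul_sub, hsec _ ⟨Q.1, rfl⟩, sub_self]⟩, ⟨(2 : ℕ) ^ k • Q.1, Q.2⟩)
  have hJ : Function.Injective J := by
    intro Q Q' h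
    have e1 : (⟨(2 : ℕ) ^ k • Q.1, Q.2⟩ : A) = ⟨(2 : ℕ) ^ k • Q'.1, Q'.2⟩ := congrArg Prod.snd h
    have e2 : Q.1 - sec ⟨(2 : ℕ) ^ k • Q.1, Q.2⟩ = Q'.1 - sec ⟨(2 : ℕ) ^ k • Q'.1, Q'.2⟩ :=
      congrArg (fun x => x.1.1) h
    rw [e1] at e2
    exact Subtype.ext (sub_left_injective e2)
  have hfin : Finite {Q : V | (2 : ℕ) ^ k • Q ∈ A} := Finite.of_injective J hJ
  refine ⟨hfin, ?_⟩
  have h4 := Nat.card_le_card_of_injective J hJ
  rw [Nat.card_prod, Nat.card_coe_set_eq, Nat.card_coe_set_eq] at h4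
  exact h4.trans (Nat.mul_le_mul_right _ h2)

/-- The points fixed by `D v` for the twist `chi`. -/
def invD (S : Sys G V V1 Pl) (chi : G → ZMod 2) (v : Pl) : AddSubgroup V where
  carrier := {Q | ∀ s ∈ S.D v, dl chi Q s = 0}
  zero_mem' := fun s _ => by
    change dlHom chi s 0 = 0
    exact map_zero _
  add_mem' := fun {a b} ha hb s hs => by
    change dlHom chi s (a + b) = 0
    rw [map_add]
    change dl chi a s + dl chi b s = 0
    rw [ha s hs, hb s hs, add_zero]
  neg_mem' := fun {a} ha s hs => by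
    change dlHom chi s (-a) = 0
    rw [map_neg]
    change -dl chi a s = 0
    rw [ha s hs, neg_zero]

theorem mem_invD {chi : G → ZMod 2} {v : Pl} {Q : V} :
    Q ∈ invD S chi v ↔ ∀ s ∈ S.D v, dl chi Q s = 0 := Iff.rfl

theorem finite_invD (hS : S.Ok) {chi : G → ZMod 2} (hchi : S.HomG chi) (v : Pl) :
    Finite (invD S chi v) := hS.fin_inv chi hchi v

theorem invD_congr {chi chi' : G → ZMod 2} {v : Pl} (h : ∀ s ∈ S.D v, chi s = chi' s) :
    invD S chi v = invD S chi' v := by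
  ext Q
  rw [mem_invD, mem_invD]
  refine forall₂_congr fun s hs => ?_
  unfold dl tw
  rw [h s hs]

/-- The local points of the rigid Selmer elements of level `k`. -/
def locSet (S : Sys G V V1 Pl) (chi : G → ZMod 2) (k : ℕ) : Set (Pl → V) :=
  {w | (∀ v ∈ S.good, w v = 0) ∧ ∀ v, v ∉ S.good → (2 : ℕ) ^ k • w v ∈ invD S chi v}

theorem mem_locSet {chi : G → ZMod 2} {i k : ℕ} (hik : i ≤ k) {y : (G → V) × (Pl → V)}
    (hy : IsPr S chi i y) : y.2 ∈ locSet S chi k := by
  refine ⟨hy.off, fun v hv => ?_⟩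
  rw [mem_invD]
  intro s hs
  rw [dl_nsmul, ← hy.loc v hv s hs]
  exact lev_le hik (hy.sel.lev s)

theorem locSet_congr {chi chi' : G → ZMod 2} {k : ℕ}
    (h : ∀ v, v ∉ S.good → ∀ s ∈ S.D v, chi s = chi' s) :
    locSet S chi k = locSet S chi' k := by
  ext w
  unfold locSet
  refine and_congr_right fun _ => forall₂_congr fun v hv => ?_
  rw [invD_congr (h v hv)]

/-- The number of local points: at most `∏ #V1^k #invD` over the bad places. -/
theorem card_locSet (hS : S.Ok) {chi : G → ZMod 2} (hchi : S.HomG chi) (k : ℕ) :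
    (locSet S chi k).Finite ∧ (locSet S chi k).ncard ≤
      ∏ v ∈ hS.good_fin.toFinset, (Nat.card V1 ^ k * Nat.card (invD S chi v)) := by
  classical
  have hfin : ∀ v, Finite (invD S chi v) := fun v => finite_invD hS hchi v
  have h1 := fun v => @card_half _ _ _ _ _ _ _ _ _ S hS k (invD S chi v) (hfin v)
  have h2 : ∀ v, Finite {Q : V | (2 : ℕ) ^ k • Q ∈ invD S chi v} := fun v => (h1 v).1
  have : Finite hS.good_fin.toFinset := Finite.of_fintype _
  let J : locSet S chi k → ∀ v : hS.good_fin.toFinset, {Q : V | (2 : ℕ) ^ k • Q ∈ invD S chi v.1} :=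
    fun w v => ⟨w.1 v.1, w.2.2 v.1 (by
      have := v.2
      rw [Set.Finite.mem_toFinset] at this
      exact this)⟩
  have hJ : Function.Injective J := by
    intro w w' h
    apply Subtype.ext
    funext v
    by_cases hv : v ∈ S.good
    · rw [w.2.1 v hv, w'.2.1 v hv]
    · have hv' : v ∈ hS.good_fin.toFinset := by
        rw [Set.Finite.mem_toFinset]
        exact hv
      exact congrArg Subtype.val (congrFun h ⟨v, hv'⟩)
  have hfin' : Finite (locSet S chi k) := Finite.of_injective J hJ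
  refine ⟨hfin', ?_⟩
  have h3 := Nat.card_le_card_of_injective J hJ
  rw [Nat.card_pi, Nat.card_coe_set_eq] at h3
  refine h3.trans ?_
  rw [← prod_coe_sort hS.good_fin.toFinset
    (fun v => Nat.card V1 ^ k * Nat.card (invD S chi v))]
  refine prod_le_prod' fun v _ => ?_
  rw [Nat.card_coe_set_eq]
  exact (h1 v.1).2

end loc

variable {G V V1 Pl M : Type*} [Group G] [AddCommGroup V] [DistribMulAction G V]
  [AddCommGroup V1] [Module (ZMod 2) V1] [AddCommGroup M] [DistribMulAction G M]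
variable {S : Sys G V V1 Pl} {ι : Type*} [Fintype ι] {X : ι → Type*} {r k kk : ℕ}
  {H : HData V M Pl} {Γ : Grid S X} {τ : TwH G V V1 Pl M ι r}

theorem yy_spec {x : ∀ i, X i} (hx : x ∈ τ.YH H Γ k kk) :
    τ.IsSys H Γ k kk x (τ.yy H Γ k kk x) := by
  unfold TwH.yy
  rw [dif_pos hx.2]
  exact hx.2.choose_spec

/-- The data of the generic grid theorem. -/
noncomputable def TwH.cor (τ : TwH G V V1 Pl M ι r) (H : HData V M Pl) (Γ : Grid S X)
    (k kk : ℕ) : Cor G V V1 X ((Fin (r + 1) → ι → V) × (Fin (r + 1) → Pl → V)) r where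
  c := τ.c
  jl := τ.jl
  sig := τ.sig
  Y := τ.YH H Γ k kk
  psi x l := (τ.yy H Γ k kk x l).1
  col := τ.colH H Γ k kk

theorem cor_ok (hτ : τ.Ok Γ k) : (τ.cor H Γ k kk).Ok Γ k where
  Y_sub := fun _ hx => hx.1
  isC := fun l => (hτ.c_mem l).1
  jl_pos := hτ.jl_pos
  jl_le := hτ.jl_le
  jl_zero := hτ.jl_zero
  sig_card := hτ.sig_card
  supp := hτ.supp
  sel := fun _ hx l => ((yy_spec hx).tow l).pr.sel
  base := fun _ hx l s => ((yy_spec hx).tow l).base s
  col_sg := fun _ _ _ _ h l i => congrFun (congrFun (congrArg Prod.fst h) l) i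

theorem cor_good [DecidableEq ι] {x0 x : ∀ i, X i} :
    (τ.cor H Γ k kk).Good Γ x0 x ↔ τ.GoodH H Γ k kk x0 x := Iff.rfl

/-- The number of colours. -/
theorem card_colH (hS : S.Ok) (hΓ : Γ.Ok) (hτ : τ.Ok Γ k) (x0 : ∀ i, X i) :
    ∃ C : Finset ((Fin (r + 1) → ι → V) × (Fin (r + 1) → Pl → V)),
      #C ≤ (Nat.card V1 ^ k) ^ ((r + 1) * Fintype.card ι) *
        (∏ v ∈ hS.good_fin.toFinset, (Nat.card V1 ^ k * Nat.card (invD S (Γ.chi x0) v))) ^
          (r + 1) ∧
      ∀ x ∈ τ.YH H Γ k kk, τ.colH H Γ k kk x ∈ C := by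
  classical
  obtain ⟨h1, h2⟩ := card_tor hS k
  obtain ⟨h3, h4⟩ := card_locSet hS (Grid.chi_hom hS hΓ x0) k
  refine ⟨(Fintype.piFinset fun _ => Fintype.piFinset fun _ => h1.toFinset) ×ˢ
    (Fintype.piFinset fun _ => h3.toFinset), ?_, ?_⟩
  · rw [card_product]
    apply Nat.mul_le_mul
    · rw [Fintype.card_piFinset, prod_const, card_univ, Fintype.card_fin, Fintype.card_piFinset,
        prod_const, card_univ, ← pow_mul, mul_comm (Fintype.card ι)]
      apply Nat.pow_le_pow_left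
      rw [← Set.ncard_eq_toFinset_card _ h1]
      exact h2
    · rw [Fintype.card_piFinset, prod_const, card_univ, Fintype.card_fin]
      apply Nat.pow_le_pow_left
      rw [← Set.ncard_eq_toFinset_card _ h3]
      exact h4
  · intro x hx
    rw [mem_product]
    constructor
    · rw [Fintype.mem_piFinset]
      intro l
      rw [Fintype.mem_piFinset]
      intro i
      rw [Set.Finite.mem_toFinset]
      exact lev_le (hτ.jl_le l) (((yy_spec hx).tow l).pr.sel.lev _)
    · rw [Fintype.mem_piFinset]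
      intro l
      rw [Set.Finite.mem_toFinset]
      have h5 := mem_locSet (hτ.jl_le l) ((yy_spec hx).tow l).pr
      rwa [locSet_congr (chi' := Γ.chi x0)] at h5
      intro v hv s hs
      exact Grid.chi_bad hΓ x x0 (by
        by_contra hc
        exact hv (hΓ.bad_good v hc)) s hs

end Pool.Agent.SmNH
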