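import Pool.Agent.Lib.SmNH.I.Core.UniInst
import Pool.Agent.Lib.SmN.I.UData

/-!
HEIGHTS over SMITH-U, block I_core: the facts on a good pair of points which do not use the claim, and
the joint to `grid_abs`: factorisation of the condition `Good` and of the sign of `F` at the good
points (port of `SmN/I/Claim`, `SmN/I/UData`).
-/

set_option autoImplicit false

open Finset

namespace Pool.Agent.SmNH.UD

open Pool.Agent.Sm (Uni)
open Pool.Agent.SmN.UD (sR sR_add sR_abs sR_sum prod_abs_le none_notMem_upF upF_nonempty upF_card)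

open Pool.Agent.SmNH Pool.Agent.SmN Pool.Agent.SmN.IT Pool.Agent.SmA

section general

variable {G V V1 Pl : Type*} [Group G] [AddCommGroup V] [DistribMulAction G V]
  [AddCommGroup V1] [Module (ZMod 2) V1] {S : Sys G V V1 Pl}
variable {ι : Type*} [Fintype ι] [DecidableEq ι] {X : ι → Type*} {κ : Type*} {r k : ℕ}
  {Γ : Grid S X} {τ : Cor G V V1 X κ r} {x0 x y : ∀ i, X i}

/-- All the vertices but the last one are in `Y` with the colour of `x0`. -/
theorem good_vertex (h : τ.Good Γ x0 x) {T : Finset ι} (hT : T ≠ univ) :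
    mix T x0 x ∈ τ.Y ∧ τ.col (mix T x0 x) = τ.col x0 := by
  obtain ⟨i, hi⟩ := IC.exists_notMem hT
  exact (h i).2.1 T (IC.subset_erase hi)

theorem good_x0 (hcard : 1 ≤ Fintype.card ι) (h : τ.Good Γ x0 x) : x0 ∈ τ.Y := by
  have h1 : (∅ : Finset ι) ≠ univ := by
    intro he
    have : (univ : Finset ι).card = 0 := by rw [← he, card_empty]
    rw [card_univ] at this
    omega
  have h2 := (good_vertex h h1).1
  rwa [mix_empty] at h2

theorem good_ne (hcard : 2 ≤ Fintype.card ι) (h : τ.Good Γ x0 x) (i : ι) :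
    Γ.pl i (x0 i) ≠ Γ.pl i (x i) := by
  have h1 : 1 < Fintype.card ι := hcard
  obtain ⟨j, hj⟩ := Fintype.exists_ne_of_one_lt_card h1 i
  exact (h j).1 i (mem_erase.2 ⟨hj.symm, mem_univ i⟩)

theorem good_mn (h : τ.Good Γ x0 x) (l : Fin (r + 1)) {U P : Finset ι} (hUP : Disjoint U P)
    (hσ : Disjoint U (τ.sig l)) (h0 : U.Nonempty) (hj : U.card ≤ τ.jl l) (hne : P ∪ U ≠ univ) :
    Mn (τ.jl l) (τ.fam x0 x l) U P := by
  obtain ⟨i, hi⟩ := IC.exists_notMem hne
  rw [mem_union, not_or] at hi
  refine (h i).2.2 l U (IC.subset_erase hi.2) h0 hj hσ P ?_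
  intro a ha
  rw [mem_sdiff]
  exact ⟨IC.subset_erase hi.1 ha, fun hc => disjoint_left.1 hUP hc ha⟩

theorem good_symOk (hτ : τ.Ok Γ k) (hcard : 3 ≤ Fintype.card ι) (h : τ.Good Γ x0 x) :
    Γ.SymOk x0 x :=
  Grid.symOk_of_mix hcard fun _ hT => hτ.Y_sub _ (good_vertex h hT).1

theorem good_mem_Xs (hτ : τ.Ok Γ k) (hcard : 3 ≤ Fintype.card ι) (h : τ.Good Γ x0 x)
    (T : Finset ι) : mix T x0 x ∈ Γ.Xs :=
  Grid.mem_Xs_of_symOk (good_symOk hτ hcard h) T

theorem good_cubeOk (hS : S.Ok) (hΓ : Γ.Ok) (hτ : τ.Ok Γ k) (hcard : 3 ≤ Fintype.card ι)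
    (h : τ.Good Γ x0 x) :
    CubeOk (S.conj (Γ.cg x0 x)) (Γ.chi x0) (Γ.del x0 x) (Γ.plc x0 x) :=
  Grid.cubeOk hS hΓ (good_ne (by omega) h) (good_symOk hτ hcard h)

/-- The completed family. -/
noncomputable def lst (τ : Cor G V V1 X κ r) (x0 x : ∀ i, X i) (l : Fin (r + 1)) :
    Finset ι → G → V :=
  lastFam (univ \ τ.sig l) (τ.fam x0 x l)

theorem lst_of_ne (l : Fin (r + 1)) {T : Finset ι} (hT : T ≠ univ) :
    lst τ x0 x l T = τ.fam x0 x l T :=
  lastFam_of_ne _ _ hT

/-- H5 for the grid. -/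
theorem good_last (hS : S.Ok) (hΓ : Γ.Ok) (hτ : τ.Ok Γ k) (hk : 1 ≤ k)
    (hI : Fintype.card ι = k + 2) (h : τ.Good Γ x0 x) (l : Fin (r + 1)) :
    (∀ P, S.IsSel (chiC (Γ.chi x0) (Γ.del x0 x) P) (τ.jl l) (lst τ x0 x l P)) ∧
    (∀ U P, Disjoint U P → Disjoint U (τ.sig l) → U.Nonempty → U.card ≤ τ.jl l →
      Mn (τ.jl l) (lst τ x0 x l) U P) := by
  have key := last_vertex (hS.conj (Γ.cg x0 x)) (good_cubeOk hS hΓ hτ (by omega) h) (hτ.jl_le l) hI
    (hτ.sig_card l) (Psi := τ.fam x0 x l) ?_ ?_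
  · exact ⟨fun P => (IC.conj_sel hS hΓ x0 x P _ _ _).1 (key.1 P), key.2⟩
  · intro P hP
    have h1 := hτ.sel _ (good_vertex h hP).1 l
    rw [Grid.chi_mix] at h1
    exact (IC.conj_sel hS hΓ x0 x P _ _ _).2 h1
  · intro U P hUP hσ h0 hj hne
    exact good_mn h l hUP hσ h0 hj hne

theorem good_star (hS : S.Ok) (hΓ : Γ.Ok) (hτ : τ.Ok Γ k) (hk : 1 ≤ k)
    (hI : Fintype.card ι = k + 2) (h : τ.Good Γ x0 x) (l : Fin (r + 1)) :
    Star univ (τ.jl l) (lst τ x0 x l) := by
  have h1 := good_last hS hΓ hτ hk hI h l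
  exact star_of_min (hτ.sig_card l) (fun P _ s => (h1.1 P).lev s)
    (fun U P _ _ h2 h3 h4 h5 => h1.2 U P h2 h3 h4 h5)

/-- The base of the last vertex. -/
theorem good_base (hS : S.Ok) (hΓ : Γ.Ok) (hτ : τ.Ok Γ k) (hk : 1 ≤ k)
    (hI : Fintype.card ι = k + 2) (h : τ.Good Γ x0 x) (l : Fin (r + 1)) (s : G) :
    (2 : ℕ) ^ (τ.jl l - 1) • lst τ x0 x l univ s = S.iota (Γ.ch (τ.c l) x s) := by
  -- a direction outside of the support
  obtain ⟨i, hi⟩ : ∃ i, i ∉ τ.sig l := by
    apply IC.exists_notMem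
    intro he
    have h1 := hτ.sig_card l
    rw [he, card_univ] at h1
    omega
  have h1 := (good_last hS hΓ hτ hk hI h l).2 {i} (univ.erase i) (by simp)
    (disjoint_singleton_left.2 hi) (singleton_nonempty i) (by
      rw [card_singleton]
      exact hτ.jl_pos l) s
  rw [alt_singleton, card_singleton, insert_erase (mem_univ i)] at h1
  have hne : (univ.erase i : Finset ι) ≠ univ := fun he => by
    have := notMem_erase i (univ : Finset ι)
    rw [he] at this
    exact this (mem_univ i)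
  rw [lst_of_ne l hne] at h1
  rw [← sub_eq_zero.1 h1]
  have h2 := hτ.base _ (good_vertex h hne).1 l s
  change (2 : ℕ) ^ (τ.jl l - 1) • τ.psi (mix (univ.erase i) x0 x) l s = _
  rw [h2]
  congr 1
  refine IC.ch_congr hΓ (fun j => ?_) s
  by_cases hj : j = i
  · subst hj
    exact Or.inr (hτ.supp l j hi)
  · left
    exact mix_mem x0 x (mem_erase.2 ⟨hj, mem_univ j⟩)

theorem lst_phiC (l : Fin (r + 1)) {R : Finset ι} (hR : R ≠ univ) (j : ℕ) :
    PhiC S j (lst τ x0 x l) R = PhiC S j (τ.fam x0 x l) R := by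
  apply IC.phiC_congr
  intro T hT
  apply lst_of_ne
  intro he
  apply hR
  rw [he] at hT
  exact eq_univ_iff_forall.2 fun a => hT (mem_univ a)

/-- H7 for the grid: the functions `Phi_R`, `ib ∉ R`, vanish at the Frobenius elements of the places
of the direction `ib`. -/
theorem good_phi_zero (hS : S.Ok) (hΓ : Γ.Ok) (hτ : τ.Ok Γ k) (hk : 1 ≤ k)
    (hI : Fintype.card ι = k + 2) (h : τ.Good Γ x0 x) {R : Finset ι} (hR : R.Nonempty)
    (hj : R.card ≤ k) {ib : ι} (hib : ib ∉ R) (e : Bool) :
    PhiC S k (τ.fam x0 x 0) R (Γ.phx ib (Grid.pt x0 x ib e)) = 0 := by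
  have hst := good_star hS hΓ hτ hk hI h 0
  have hlast := (good_last hS hΓ hτ hk hI h 0).1
  have hne := good_ne (by omega) h
  rw [hτ.jl_zero] at hst hlast
  have hRu : R ≠ univ := fun he => hib (he ▸ mem_univ ib)
  rw [← lst_phiC 0 hRu k]
  have key := phiC_zero_on_D (hS.conj (Γ.cg x0 x)) (good_cubeOk hS hΓ hτ (by omega) h) hst
    (fun T _ => (IC.conj_sel hS hΓ x0 x T _ _ _).2 (hlast T))
    (subset_univ R) hR hj hib (mem_univ ib) e
    (c := τ.psi x0 0 (Γ.sgx ib (x0 ib))) ?_ _ ((hS.conj (Γ.cg x0 x)).phi_mem _)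
  · rw [Grid.cg_phi hΓ (Grid.Sep.of_ne hne)] at key
    exact key
  intro T hT
  have hTib : ib ∉ T := fun hc => hib (hT hc)
  have hne' : (if e then insert ib T else T) ≠ univ := by
    intro he
    have h1 : (if e then insert ib T else T : Finset ι).card = k + 2 := by
      rw [he, card_univ, hI]
    have h2 : T.card ≤ k := (card_le_card hT).trans hj
    cases e with
    | true =>
      simp only [if_true] at h1
      rw [card_insert_of_notMem hTib] at h1
      omega
    | false =>
      simp only [Bool.false_eq_true, if_false] at h1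
      omega
  rw [lst_of_ne 0 hne', Grid.cg_sg hΓ (Grid.Sep.of_ne hne)]
  have h2 := good_vertex h hne'
  have h3 := hτ.col_sg _ h2.1 x0 (good_x0 (by omega) h) h2.2 0 ib
  rw [← h3]
  change τ.psi _ 0 _ = τ.psi _ 0 _
  congr 2
  cases e with
  | true =>
    simp only [if_true]
    exact (mix_mem x0 x (mem_insert_self ib T)).symm
  | false =>
    simp only [Bool.false_eq_true, if_false]
    exact (mix_notMem x0 x hTib).symm

/-- The conditions on a face depend only on the coordinates of the face. -/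
theorem faceOk_congr {U : Finset ι} (h : ∀ i ∈ U, x i = y i) (hx : τ.FaceOk Γ U x0 x) :
    τ.FaceOk Γ U x0 y := by
  have hm : ∀ T, T ⊆ U → mix T x0 x = mix T x0 y := fun T hT => Grid.mix_congr hT h
  refine ⟨fun i hi => h i hi ▸ hx.1 i hi, fun T hT => hm T hT ▸ hx.2.1 T hT,
    fun l W hW hW0 hWj hσ T hT s => ?_⟩
  rw [← hx.2.2 l W hW hW0 hWj hσ T hT s]
  refine alt_congr fun T' hT' => ?_
  unfold Cor.fam
  rw [hm (T ∪ T') (union_subset (hT.trans sdiff_subset) (hT'.trans hW))]

theorem faceOk_iff {U : Finset ι} (h : ∀ i ∈ U, x i = y i) :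
    τ.FaceOk Γ U x0 x ↔ τ.FaceOk Γ U x0 y :=
  ⟨faceOk_congr h, faceOk_congr fun i hi => (h i hi).symm⟩

open Classical in
/-- (hfac) -/
theorem hfac (τ : Cor G V V1 X κ r) (Γ : Grid S X) (x0 : ∀ i, X i) :
    ∃ φ : ι → (∀ i, X i) → ℝ, (∀ j, Misses j (φ j)) ∧
      ∀ x, (if τ.Good Γ x0 x then (1 : ℝ) else 0) = ∏ j, φ j x := by
  refine ⟨fun j x => if τ.FaceOk Γ (univ.erase j) x0 x then 1 else 0, fun j => ⟨fun x => ?_,
    fun x z => ?_⟩, fun x => ?_⟩
  · beta_reduce
    split_ifs <;> simp
  · have h1 : τ.FaceOk Γ (univ.erase j) x0 (Function.update x j z) ↔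
        τ.FaceOk Γ (univ.erase j) x0 x :=
      faceOk_iff fun i hi => Function.update_of_ne (ne_of_mem_erase hi) _ _
    simp only [h1]
  · by_cases h : τ.Good Γ x0 x
    · rw [if_pos h, prod_eq_one]
      intro j _
      exact if_pos (h j)
    · rw [if_neg h]
      obtain ⟨j, hj⟩ : ∃ j, ¬ τ.FaceOk Γ (univ.erase j) x0 x := by
        by_contra hc
        push Not at hc
        exact h hc
      symm
      exact prod_eq_zero (mem_univ j) (if_neg hj)

end general

variable {G V V1 Pl : Type*} [Group G] [AddCommGroup V] [DistribMulAction G V]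
  [AddCommGroup V1] [Module (ZMod 2) V1] {S : Sys G V V1 Pl}
variable {k r : ℕ} {X : Option (Option (Fin k)) → Type*} {κ : Type*} {Γ : Grid S X}
variable {τ : Cor G V V1 X κ r} {x0 x : ∀ i, X i}

theorem extP_agree (x0 x : ∀ i, X i) :
    ∀ i ∈ (univ : Finset (Option (Option (Fin k)))).erase none,
      extP x0 (fun i => x (some i)) i = x i := by
  intro i hi
  cases i with
  | none => exact absurd hi (notMem_erase _ _)
  | some i => rfl

/-- (u4), first part. -/
theorem good_FG (h : τ.Good Γ x0 x) : τ.FG Γ x0 (fun i => x (some i)) :=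
  faceOk_congr (fun i hi => (extP_agree x0 x i hi).symm) (h none)

theorem phiC_ext {R : Finset (Option (Option (Fin k)))} (hR : none ∉ R) :
    PhiC S k (τ.fam x0 (extP x0 (fun i => x (some i))) 0) R =
      PhiC S k (τ.fam x0 x 0) R := by
  apply IC.phiC_congr
  intro T hT
  unfold Cor.fam
  rw [Grid.mix_congr (U := univ.erase none) (IC.subset_erase fun h => hR (hT h)) (extP_agree x0 x)]

theorem pdel_ext {T : Finset (Option (Option (Fin k)))} (hT : none ∉ T) (s : G) :
    pdel (Γ.del x0 (extP x0 (fun i => x (some i)))) T s = pdel (Γ.del x0 x) T s := by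
  unfold pdel
  refine prod_congr rfl fun i hi => ?_
  cases i with
  | none => exact absurd hi hT
  | some i => rfl

/-- The condition on `Th` on the lower face, for the point `x`. -/
theorem isTh_ext {Th : G → V1} (h : τ.IsTh Γ x0 (extP x0 fun i => x (some i)) Th) :
    ThRel S k (Γ.del x0 x) (τ.fam x0 x 0) (univ.erase none) Th := by
  intro s t
  have h1 := h.2.1 s t
  have key : ∀ T ∈ (univ.erase none).powerset.erase ∅,
      pdel (Γ.del x0 (extP x0 (fun i => x (some i)))) T s •
        PhiC S k (τ.fam x0 (extP x0 (fun i => x (some i))) 0) (univ.erase none \ T) t =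
      pdel (Γ.del x0 x) T s • PhiC S k (τ.fam x0 x 0) (univ.erase none \ T) t := by
    intro T hT
    have hT' : none ∉ T := fun hc =>
      notMem_erase none _ (mem_powerset.1 (mem_of_mem_erase hT) hc)
    rw [pdel_ext hT', phiC_ext]
    exact fun hc => notMem_erase none _ (mem_sdiff.1 hc).1
  rw [sum_congr rfl key] at h1
  exact h1

/-- `Th` vanishes at the tame generators of the conjugated system of the whole cube. -/
theorem th_unr (hS : S.Ok) (hΓ : Γ.Ok) (hτ : τ.Ok Γ k) (hσ : τ.sig 0 = {some none})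
    (h : τ.FG Γ x0 (fun i => x (some i))) (hne : Γ.Sep x0 x) {v : Pl} (hv : v ∈ S.good) :
    τ.Th Γ x0 (fun i => x (some i)) ((S.conj (Γ.cg x0 x)).sg v) = 0 := by
  have hth := exists_isTh hS hΓ hτ h
  by_cases hvn : v = Γ.pl none (x none)
  · have hIs := UU_is hS hΓ hτ hσ h
    have hb : v ∉ Γ.bad := by
      rw [hvn]
      exact hΓ.pl_bad _ _
    have hdir : ∀ (i : Option (Fin k)) (y : X (some i)), v ≠ Γ.pl (some i) y := by
      intro i y hc
      rw [hvn] at hc
      exact absurd (hΓ.pl_dir _ _ _ _ hc) (by simp)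
    obtain ⟨h1, h2⟩ := UU_sg hS hΓ hτ hσ h hb (fun i => hdir i _) (fun i => hdir i _)
    have h3 := hIs.conj_zero (Sys.ac_sg hS hv) h1 h2 (Γ.cg x0 x v) univ
    have h4 : (τ.UU Γ x0 (fun i => x (some i))).Phi univ = τ.Th Γ x0 (fun i => x (some i)) := by
      unfold Cor.UU
      exact if_pos rfl
    rw [h4] at h3
    exact h3
  · -- the two systems agree at `v`
    have hcg : Γ.cg x0 x v = Γ.cg x0 (extP x0 (fun i => x (some i))) v := by
      by_cases hpl : ∃ i e, v = Γ.plc x0 (extP x0 (fun i => x (some i))) i e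
      · obtain ⟨i, e, hve⟩ := hpl
        rw [hve, Grid.cg_plc hΓ (FG_sep h) i e]
        cases i with
        | none =>
          have h1 : Grid.pt x0 (extP x0 fun i => x (some i)) none e = x0 none := by
            cases e <;> rfl
          have h2 : Γ.plc x0 (extP x0 fun i => x (some i)) none e = Γ.plc x0 x none false := by
            unfold Grid.plc
            rw [h1]
            rfl
          rw [h2, h1, Grid.cg_plc hΓ hne none false]
          rfl
        | some i =>
          have h2 : Γ.plc x0 (extP x0 fun i => x (some i)) (some i) e =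
              Γ.plc x0 x (some i) e := rfl
          rw [h2, Grid.cg_plc hΓ hne (some i) e]
          rfl
      · push Not at hpl
        rw [Grid.cg_off hpl, Grid.cg_off]
        intro i e hc
        cases i with
        | none =>
          cases e with
          | true => exact hvn hc
          | false => exact hpl none false hc
        | some i => exact hpl (some i) e hc
    have h1 := hth.2.2 v hv
    change τ.Th Γ x0 (fun i => x (some i)) (Γ.cg x0 x v * S.sg v * (Γ.cg x0 x v)⁻¹) = 0
    rw [hcg]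
    exact h1

/-- The chosen `Th` of the lower face works for the whole cube. -/
theorem th_isTh (hS : S.Ok) (hΓ : Γ.Ok) (hτ : τ.Ok Γ k) (hσ : τ.sig 0 = {some none})
    (h : τ.FG Γ x0 (fun i => x (some i))) (hne : Γ.Sep x0 x) :
    τ.IsTh Γ x0 x (τ.Th Γ x0 (fun i => x (some i))) :=
  ⟨(exists_isTh hS hΓ hτ h).1, isTh_ext (exists_isTh hS hΓ hτ h),
    fun _ hv => th_unr hS hΓ hτ hσ h hne hv⟩

/-- `F` at the last vertex. -/
theorem good_F {F : (∀ i, X i) → ZMod 2} {be : V1} (hcl : τ.Claim Γ F be) (h : τ.Good Γ x0 x)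
    {Th : G → V1} (hTh : τ.IsTh Γ x0 x Th) :
    F x = (∑ T ∈ univ.erase univ, F (mix T x0 x)) +
      S.e (Th (Γ.phx none (x0 none)) + Th (Γ.phx none (x none))) be := by
  have h1 := (hcl x0 x h).2 Th hTh
  rw [← add_sum_erase univ _ (mem_univ (univ : Finset (Option (Option (Fin k))))),
    Grid.mix_univ] at h1
  rw [← h1]
  generalize F x = a
  generalize ∑ T ∈ univ.erase univ, F (mix T x0 x) = b
  revert a b
  decide

open Classical in
/-- (u4) -/
theorem form (hS : S.Ok) (hΓ : Γ.Ok) (hτ : τ.Ok Γ k) (hk : 1 ≤ k) (hσ : τ.sig 0 = {some none})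
    {F : (∀ i, X i) → ZMod 2} {be : V1} (hcl : τ.Claim Γ F be) (lam : V1 →+ ZMod 2)
    (hlam : ∀ w, lam w = S.e w be) (x0 : ∀ i, X i) :
    ∃ ψ : Option (Option (Fin k)) → (∀ i, X i) → ℝ, (∀ j, Misses j (ψ j)) ∧
      ∀ x, τ.Good Γ x0 x → (if F x = 0 then (1 : ℝ) else -1) =
        (τ.UU Γ x0 (fun i => x (some i))).Kt lam (Γ.phx none (x none)) *
          ∏ j, ψ j x := by
  -- the choice of a direction outside of `T`
  have hch : ∀ T : Finset (Option (Option (Fin k))), ∃ j, T ≠ univ → j ∉ T := by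
    intro T
    by_cases hT : T = univ
    · exact ⟨none, fun h => absurd hT h⟩
    · obtain ⟨j, hj⟩ := IC.exists_notMem hT
      exact ⟨j, fun _ => hj⟩
  choose J hJ using hch
  let E : Finset (Finset (Option (Option (Fin k)))) := univ.erase univ
  let ψ : Option (Option (Fin k)) → (∀ i, X i) → ℝ := fun j x =>
    (∏ T ∈ E with J T = j, sR (F (mix T x0 x))) *
      (if j = none then sR (S.e (τ.Th Γ x0 (fun i => x (some i)) (Γ.phx none (x0 none)))
        be) else 1)
  refine ⟨ψ, fun j => ⟨fun x => ?_, fun x z => ?_⟩, fun x h => ?_⟩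
  · change |_ * _| ≤ (1 : ℝ)
    rw [abs_mul]
    refine mul_le_one₀ (prod_abs_le _ _) (abs_nonneg _) ?_
    split_ifs
    · exact (sR_abs _).le
    · simp
  · change _ * _ = _ * _
    congr 1
    · refine prod_congr rfl fun T hT => ?_
      obtain ⟨hT1, hT2⟩ := mem_filter.1 hT
      have hj : j ∉ T := hT2 ▸ hJ T (ne_of_mem_erase hT1)
      rw [Grid.mix_congr (U := univ.erase j) (IC.subset_erase hj) fun i hi =>
        Function.update_of_ne (ne_of_mem_erase hi) z x]
    · split_ifs with hj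
      · subst hj
        rfl
      · rfl
  · -- the formula
    have hcard : Fintype.card (Option (Option (Fin k))) = k + 2 := by simp
    have hFG := good_FG h
    have hne := good_ne (by omega) h
    have hF := good_F hcl h (th_isTh hS hΓ hτ hσ hFG (Grid.Sep.of_ne hne))
    -- the value of `Kt`
    have hcube := good_cubeOk hS hΓ hτ (by omega) h
    have hKt : (τ.UU Γ x0 (fun i => x (some i))).Kt lam (Γ.phx none (x none)) =
        sR (S.e (τ.Th Γ x0 (fun i => x (some i)) (Γ.phx none (x none))) be) := by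
      unfold Uni.Kt
      rw [if_pos]
      · rw [← hlam]
        have e1 : (τ.UU Γ x0 (fun i => x (some i))).Phi univ =
            τ.Th Γ x0 (fun i => x (some i)) := by
          unfold Cor.UU
          exact if_pos rfl
        rw [e1]
        rfl
      · refine ⟨fun i => ?_, fun T hT => ?_⟩
        · have h1 := hcube.del_D none true (some (some i)) (by simp) _
            ((hS.conj (Γ.cg x0 x)).phi_mem _)
          rw [Grid.cg_phi hΓ (Grid.Sep.of_ne hne)] at h1
          exact h1
        · have e1 : (τ.UU Γ x0 (fun i => x (some i))).Phi T =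
              PhiC S k (τ.fam x0 (extP x0 (fun i => x (some i))) 0) (upF T) := by
            unfold Cor.UU
            exact if_neg hT
          rw [e1, phiC_ext (none_notMem_upF T)]
          refine good_phi_zero hS hΓ hτ hk hcard h (upF_nonempty T) ?_ (none_notMem_upF T)
            true
          rw [upF_card]
          have h2 : T.card < (univ : Finset (Fin k)).card :=
            card_lt_card (ssubset_univ_iff.2 hT)
          rw [card_univ, Fintype.card_fin] at h2
          omega
    have e2 : (if F x = 0 then (1 : ℝ) else -1) = sR (F x) := rfl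
    have e3 : ∏ j, ψ j x = (∏ T ∈ E, sR (F (mix T x0 x))) *
        sR (S.e (τ.Th Γ x0 (fun i => x (some i)) (Γ.phx none (x0 none)))
          be) := by
      change ∏ j, (_ * _) = _
      rw [prod_mul_distrib]
      congr 1
      · exact prod_fiberwise_of_maps_to (fun T _ => mem_univ (J T)) _
      · rw [prod_ite_eq' univ none]
        simp
    rw [e2, hF, hKt, e3, sR_add, sR_sum, map_add, LinearMap.add_apply, sR_add]
    ring

end Pool.Agent.SmNH.UD
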