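import Pool.Agent.Lib.SmN.I.GridEnd
import Pool.Agent.Lib.SmNH.I.Core.UData
import Pool.Agent.Lib.SmNH.I.Core.Cancel
import Pool.Agent.Lib.SmNH.I.Core.Many

/-!
HEIGHTS over SMITH-U, block I: the generic grid theorem `core_grid_end`.
-/

set_option autoImplicit false

open Finset

namespace Pool.Agent.SmNH

open Pool.Agent.Sm (Uni)

open Pool.Agent.SmN Pool.Agent.SmN.IT Pool.Agent.SmA

/-- The density constant (`K` = the number of colours, `M = #V1`, `g = #R`). -/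
noncomputable def cGrH (M g m r N K : ℕ) (δ : ℝ) : ℝ :=
  (δ / (K : ℝ)) ^ (2 ^ (m + 2)) / (nCls M g N r (m + 2) : ℝ) ^ (2 ^ (m + 2))

variable {G V V1 Pl : Type*} [Group G] [AddCommGroup V] [DistribMulAction G V]
  [AddCommGroup V1] [Module (ZMod 2) V1] {S : Sys G V V1 Pl}
variable {m r : ℕ} {X : Option (Option (Fin m)) → Type*} {κ : Type*} {Γ : Grid S X}
variable {τ : Cor G V V1 X κ r}
variable [∀ i, Fintype (X i)] [∀ i, Nonempty (X i)]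

/-- The generic grid theorem. -/
theorem core_grid_end {Pr : Type*} (hS : S.Ok) (hΓ : Γ.Ok) (hτ : τ.Ok Γ m) (hm : 1 ≤ m)
    (hσ : τ.sig 0 = {some none}) {Fn : (∀ i, X i) → ZMod 2} {be : V1} (hcl : τ.Claim Γ Fn be)
    (hee : S.e ((τ.c 0).2 (some none)) be = 1)
    (N0 : ℕ) (hN0 : 0 < N0) (hsel : ∀ x ∈ τ.Y, {b | S.IsSel1 (Γ.chi x) b}.Finite ∧
      {b | S.IsSel1 (Γ.chi x) b}.ncard ≤ N0)
    (Co : Finset κ) (K : ℕ) (hK : 0 < K) (hCo : #Co ≤ K) (hCo' : ∀ x ∈ τ.Y, τ.col x ∈ Co)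
    (hR : 0 < Γ.R.card)
    (pl : Pr → Pl) (deg : Pr → ℕ) {q a C : ℕ}
    (hC : ChebU S.NN S.ac.ker Γ.R deg (fun P => S.sg (pl P)) (fun P => S.phi (pl P)) q a C)
    (po : ∀ i, X i → Pr) (M : Subgroup G) (K0 : ℕ) (Q : G → Prop) (D : ℕ) (E B0 : Finset Pr)
    (rr : ℕ) (hL : LastOk Γ pl deg po M K0 Q D E B0 rr)
    (Y : Finset (∀ i, X i)) (hY : ∀ x, x ∈ Y ↔ x ∈ τ.Y)
    (γ : ℝ) (hγ0 : 0 ≤ γ)
    (hγ : bGr (Nat.card V1) m K0 rr a q C D ^ 2 / (Fintype.card (X none) : ℝ) ^ 2 +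
      3 * Γ.R.card * ∑ i : Option (Fin m), 1 / (Fintype.card (X (some i)) : ℝ) ≤ γ ^ 2 ^ (m + 2))
    (δ : ℝ) (hδ : 0 ≤ δ)
    (hc : ∑ i, 1 / (Fintype.card (X i) : ℝ) ≤ cGrH (Nat.card V1) Γ.R.card m r N0 K δ / 2) (N : ℕ)
    (hN : 2 ≤ cGrH (Nat.card V1) Γ.R.card m r N0 K δ * N) :
    |∑ x ∈ Y, (if Fn x = 0 then (1 : ℝ) else -1)| ≤
      (δ + 2 ^ N * γ) * Fintype.card (∀ i, X i) := by
  classical
  have hcard : Fintype.card (Option (Option (Fin m))) = m + 2 := by simp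
  refine grid_abs (fun i a b => Γ.pl (some i) a = Γ.pl (some i) b)
    (fun i a b h => h.symm) Γ.R.card (fun i c => ?_) _
    (fun x => if Fn x = 0 then (1 : ℝ) else -1) (fun x => ?_)
    (fun x0 x => τ.Good Γ x0 x)
    (fun x0 x h => (hY x).2 (hcl x0 x h).1)
    (fun x0 => UD.hfac τ Γ x0)
    (fun x0 x' P => CA.hh τ Γ (S.e.flip be).toAddMonoidHom x0 x' P)
    (fun x0 x' P => CA.hh_abs _ _ _) (fun x0 => ?_)
    (bGr (Nat.card V1) m K0 rr a q C D)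
    (fun x0 ya yb hab => ?_) γ hγ0 ?_ δ (cGrH (Nat.card V1) Γ.R.card m r N0 K δ) hδ
    (fun B hB hBδ => ?_) hc N hN
  · refine card_le_card_of_injOn (fun b => Γ.cj (some i) b) (fun b _ => hΓ.cj_mem _ b) ?_
    intro b hb b' hb' hbb
    have h1 := (mem_filter.1 hb).2
    have h2 := (mem_filter.1 hb').2
    exact hΓ.pl_inj (some i) b b' (h1.trans h2.symm) hbb
  · beta_reduce
    split_ifs <;> simp
  · obtain ⟨ψ, hψ1, hψ2⟩ := UD.form hS hΓ hτ hm hσ hcl (S.e.flip be).toAddMonoidHom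
      (fun w => rfl) x0
    refine ⟨ψ, hψ1, fun x hx => ?_⟩
    have h1 : CA.hh τ Γ (S.e.flip be).toAddMonoidHom x0 (fun i => x (some i)) (x none) =
        (τ.UU Γ x0 (fun i => x (some i))).Kt (S.e.flip be).toAddMonoidHom
          (Γ.phx none (x none)) :=
      if_pos (UD.good_FG hx)
    rw [h1]
    exact hψ2 x hx
  · exact CA.hBd_abs hS hΓ hτ hm hσ rfl (S.e.flip be).toAddMonoidHom hee pl deg hC po
      hL.hpo hL.inj M hL.Mn hL.MG hL.MN hL.Ms K0 hL.M0 hL.MK Q hL.Q1 hL.Q2 D rr hL.D1 hL.hX E hL.hE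
      B0 hL.hB0 hL.hB0D hL.hpoD hL.hrr x0 ya yb hab
  · have h1 : Fintype.card (Option (Fin m)) + 1 = m + 2 := by simp
    rw [h1]
    exact hγ
  · have h1 := core_many_good hS hΓ hτ N0 hN0 Co K hK hCo hCo' hsel hR B
      (fun x hx => (hY x).1 (hB hx)) δ hδ hBδ
    rw [hcard] at h1
    exact h1

end Pool.Agent.SmNH
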