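import Pool.Agent.Lib.SmNH.I.Core.Defs
import Pool.Agent.Lib.SmN.I.ThEx
import Pool.Agent.Lib.SmN.I.MeanN

/-!
HEIGHTS over SMITH-U, block I_core: properties (u1) - (u3) of the cochains `UU`
(port of `SmN/I/UniInst`).
-/

set_option autoImplicit false

open Finset

namespace Pool.Agent.SmNH

open Pool.Agent.SmN Pool.Agent.SmN.IT

variable {G V V1 Pl : Type*} [Group G] [AddCommGroup V] [DistribMulAction G V]
  [AddCommGroup V1] [Module (ZMod 2) V1] {S : Sys G V V1 Pl}
variable {k r : ℕ} {X : Option (Option (Fin k)) → Type*} {Γ : Grid S X}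
variable {κ : Type*} {τ : Cor G V V1 X κ r} {x0 : ∀ i, X i}
variable {x' : ∀ i : Option (Fin k), X (some i)}

private theorem UniInst_sel (hτ : τ.Ok Γ k) (h : τ.FG Γ x0 x')
    {T : Finset (Option (Option (Fin k)))} (hT : T ⊆ univ.erase none) :
    S.IsSel (chiC (Γ.chi x0) (Γ.del x0 (extP x0 x')) T) k (τ.fam x0 (extP x0 x') 0 T) := by
  have h1 := hτ.sel _ (h.2.1 T hT).1 0
  rw [Grid.chi_mix, hτ.jl_zero] at h1
  exact h1

private theorem UniInst_star (hτ : τ.Ok Γ k) (h : τ.FG Γ x0 x') :
    Star (univ.erase none) k (τ.fam x0 (extP x0 x') 0) := by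
  refine star_of_min (hτ.sig_card 0)
    (fun P hP s => (UniInst_sel hτ h hP).lev s) ?_
  intro U P hU hP hUP hσ hne hc
  have h1 := h.2.2 0 U hU hne (by rw [hτ.jl_zero]; exact hc) hσ P (by
    intro i hi
    rw [mem_sdiff]
    exact ⟨hP hi, fun hiU => (Finset.disjoint_left.1 hUP) hiU hi⟩)
  rw [hτ.jl_zero] at h1
  exact h1

private theorem UniInst_card :
    (univ.erase none : Finset (Option (Option (Fin k)))).card = k + 1 := by
  rw [card_erase_of_mem (mem_univ _), card_univ, Fintype.card_option, Fintype.card_option,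
    Fintype.card_fin]
  omega

private theorem UniInst_upF_sub (T : Finset (Fin k)) : upF T ⊆ univ.erase none := by
  intro i hi
  rw [mem_erase]
  refine ⟨?_, mem_univ _⟩
  rintro rfl
  unfold upF at hi
  rw [mem_insert, mem_map] at hi
  rcases hi with hi | ⟨j, _, hj⟩
  · exact absurd hi (by simp)
  · exact absurd hj (by simp)

private theorem UniInst_notMem (T : Finset (Fin k)) :
    (some none : Option (Option (Fin k))) ∉
      T.map ⟨fun i => some (some i), fun _ _ h => Option.some.inj (Option.some.inj h)⟩ := by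
  intro hc
  obtain ⟨j, _, hj⟩ := mem_map.1 hc
  have h1 : (some (some j) : Option (Option (Fin k))) = some none := hj
  exact absurd h1 (by simp)

private theorem UniInst_upF_card (T : Finset (Fin k)) : (upF T).card = T.card + 1 := by
  unfold upF
  rw [card_insert_of_notMem (UniInst_notMem T), card_map]

private theorem UniInst_upF_univ :
    upF (univ : Finset (Fin k)) = univ.erase none := by
  apply eq_of_subset_of_card_le (UniInst_upF_sub _)
  rw [UniInst_card, UniInst_upF_card, card_univ, Fintype.card_fin]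

private theorem UniInst_upF_inj {T T' : Finset (Fin k)} (h : upF T = upF T') : T = T' := by
  ext i
  have h1 : ∀ T : Finset (Fin k), (some (some i) : Option (Option (Fin k))) ∈ upF T ↔ i ∈ T := by
    intro T
    unfold upF
    rw [mem_insert, mem_map]
    constructor
    · rintro (hh | ⟨j, hj, hji⟩)
      · exact absurd hh (by simp)
      · have : j = i := Option.some.inj (Option.some.inj hji)
        rwa [← this]
    · intro hi
      exact Or.inr ⟨i, hi, rfl⟩
  rw [← h1 T, ← h1 T', h]

theorem FG_sep (h : τ.FG Γ x0 x') : Γ.Sep x0 (extP x0 x') := by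
  intro i
  cases i with
  | none => exact Or.inr rfl
  | some i => exact Or.inl (h.1 (some i) (mem_erase.2 ⟨by simp, mem_univ _⟩))

theorem exists_isTh (hS : S.Ok) (hΓ : Γ.Ok) (hτ : τ.Ok Γ k) (h : τ.FG Γ x0 x') :
    τ.IsTh Γ x0 (extP x0 x') (τ.Th Γ x0 x') := by
  have hex : ∃ Th, τ.IsTh Γ x0 (extP x0 x') Th := by
    have hchi := fun X => chiC_hom hS (Grid.chi_hom hS hΓ x0)
      (fun i => Grid.del_hom hS hΓ x0 (extP x0 x') i) X
    have h1 := exists_Th_face (hS.conj (Γ.cg x0 (extP x0 x'))) UniInst_card
      (chi0 := Γ.chi x0) (del := Γ.del x0 (extP x0 x'))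
      (hhom := hchi) (Psi := τ.fam x0 (extP x0 x') 0)
      (UniInst_star hτ h) (fun T hT => (Sys.conj_isSel (hchi T)).2 (UniInst_sel hτ h hT)) (by
        intro v hv
        by_cases hpl : ∃ i e, v = Γ.plc x0 (extP x0 x') i e
        · obtain ⟨i, e, rfl⟩ := hpl
          exact Or.inl (Sys.ac_conj_eq_one.2 (hΓ.split i _))
        · push Not at hpl
          right
          by_cases hb : v ∈ Γ.bad
          · exact Or.inl fun i s hs => Grid.del_bad hΓ x0 (extP x0 x') i hb s
              (Grid.cg_D_off hpl hs)
          · right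
            rw [Grid.cg_sg_off hpl]
            exact ⟨Grid.chi_sg_off hΓ x0 hb fun i => hpl i false,
              fun i => Grid.del_sg_off hΓ hb (hpl i)⟩)
    exact h1
  unfold Cor.Th
  rw [dif_pos hex]
  exact hex.choose_spec

/-- `Phi` vanishes for the faces without the direction `some none`. -/
private theorem UniInst_zero (hS : S.Ok) (hτ : τ.Ok Γ k)
    (hσ : τ.sig 0 = {some none}) (h : τ.FG Γ x0 x') {R : Finset (Option (Option (Fin k)))}
    (hR : R ⊆ univ.erase none) (hn : (some none : Option (Option (Fin k))) ∉ R) (t : G) :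
    PhiC S k (τ.fam x0 (extP x0 x') 0) R t = 0 := by
  rcases R.eq_empty_or_nonempty with rfl | hne
  · exact phiC_empty hS (fun s => (UniInst_sel hτ h (empty_subset _)).lev s) t
  · have hc : R.card ≤ k := by
      have h1 : R ⊆ (univ.erase none).erase (some none) := by
        intro i hi
        rw [mem_erase]
        refine ⟨?_, hR hi⟩
        rintro rfl
        exact hn hi
      have h2 := card_le_card h1
      rw [card_erase_of_mem (mem_erase.2 ⟨by simp, mem_univ _⟩), UniInst_card] at h2
      omega
    have h3 := h.2.2 0 R hR hne (by rw [hτ.jl_zero]; exact hc) (by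
      rw [hσ, disjoint_singleton_right]
      exact hn) ∅ (empty_subset _)
    rw [hτ.jl_zero] at h3
    exact phiC_of_mn hS h3 t

/-- Reindexing of the sums over the subsets of `upF T`. -/
private theorem UniInst_sum (del : Option (Option (Fin k)) → G → ZMod 2)
    (F : Finset (Option (Option (Fin k))) → V1)
    (hF : ∀ R, R ⊆ univ.erase none → (some none : Option (Option (Fin k))) ∉ R → F R = 0)
    (T : Finset (Fin k)) (s : G) :
    ∑ Q ∈ (upF T).powerset, pdel del Q s • F (upF T \ Q) =
      ∑ T' ∈ T.powerset, (∏ i ∈ T', del (some (some i)) s) • F (upF (T \ T')) := by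
  have e0 : upF T = insert (some none)
      (T.map ⟨fun i => some (some i), fun _ _ h => Option.some.inj (Option.some.inj h)⟩) := rfl
  rw [show (upF T).powerset = (insert (some none)
      (T.map ⟨fun i => some (some i), fun _ _ h =>
        Option.some.inj (Option.some.inj h)⟩)).powerset from rfl,
    sum_powerset_insert (UniInst_notMem T)]
  have e1 : ∑ Q ∈ (T.map ⟨fun i => some (some i), fun _ _ h =>
        Option.some.inj (Option.some.inj h)⟩).powerset,
      pdel del (insert (some none) Q) s • F (upF T \ insert (some none) Q) = 0 := by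
    apply sum_eq_zero
    intro Q _
    rw [hF _ (sdiff_subset.trans (UniInst_upF_sub T)), smul_zero]
    rw [mem_sdiff]
    rintro ⟨_, h2⟩
    exact h2 (mem_insert_self _ _)
  rw [e1, add_zero]
  symm
  apply sum_nbij (fun T' : Finset (Fin k) => T'.map ⟨fun i => some (some i), fun _ _ h =>
        Option.some.inj (Option.some.inj h)⟩)
  · intro T' hT'
    rw [mem_powerset] at hT' ⊢
    exact map_subset_map.2 hT'
  · intro A _ B _ hAB
    exact map_injective _ hAB
  · intro Q hQ
    rw [mem_coe, mem_powerset] at hQ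
    obtain ⟨u, hu, rfl⟩ := subset_map_iff.1 hQ
    exact ⟨u, mem_coe.2 (mem_powerset.2 hu), rfl⟩
  · intro T' hT'
    rw [mem_powerset] at hT'
    have e2 : upF T \ T'.map ⟨fun i => some (some i), fun _ _ h =>
        Option.some.inj (Option.some.inj h)⟩ = upF (T \ T') := by
      unfold upF
      rw [Finset.map_sdiff, insert_sdiff_of_notMem _ (UniInst_notMem T')]
    rw [e2]
    unfold pdel
    rw [prod_map]
    rfl

/-- (u1) -/
theorem UU_is (hS : S.Ok) (hΓ : Γ.Ok) (hτ : τ.Ok Γ k) (hσ : τ.sig 0 = {some none})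
    (h : τ.FG Γ x0 x') : IsA S.ac (τ.UU Γ x0 x') := by
  have hth := exists_isTh hS hΓ hτ h
  refine ⟨fun i s t => ?_, fun T s t => ?_⟩
  · exact (Grid.del_hom hS hΓ x0 (extP x0 x') (some (some i))).2 s t
  · by_cases hT : T = univ
    · subst hT
      let F : Finset (Option (Option (Fin k))) → V1 := fun R =>
        if R = univ.erase none then τ.Th Γ x0 x' t else
          PhiC S k (τ.fam x0 (extP x0 x') 0) R t
      have hF : ∀ R, R ⊆ univ.erase none → (some none : Option (Option (Fin k))) ∉ R →
          F R = 0 := by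
        intro R hR hn
        have hne : R ≠ univ.erase none := by
          rintro rfl
          exact hn (mem_erase.2 ⟨by simp, mem_univ _⟩)
        change (if R = univ.erase none then τ.Th Γ x0 x' t else
          PhiC S k (τ.fam x0 (extP x0 x') 0) R t) = 0
        rw [if_neg hne]
        exact UniInst_zero hS hτ hσ h hR hn t
      have h1 := UniInst_sum (Γ.del x0 (extP x0 x')) F hF univ s
      have h2 : ∑ Q ∈ (upF (univ : Finset (Fin k))).powerset,
          pdel (Γ.del x0 (extP x0 x')) Q s • F (upF univ \ Q) =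
          τ.Th Γ x0 x' t + ∑ T ∈ (univ.erase none : Finset (Option (Option (Fin k)))).powerset.erase ∅,
            pdel (Γ.del x0 (extP x0 x')) T s •
              PhiC S k (τ.fam x0 (extP x0 x') 0) (univ.erase none \ T) t := by
        rw [UniInst_upF_univ, ← add_sum_erase _ _ (empty_mem_powerset _)]
        congr 1
        · rw [pdel_empty, one_smul, sdiff_empty]
          exact if_pos rfl
        · apply sum_congr rfl
          intro Q hQ
          obtain ⟨hQ0, hQ1⟩ := mem_erase.1 hQ
          have hne : (univ.erase none : Finset (Option (Option (Fin k)))) \ Q ≠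
              univ.erase none := by
            intro hh
            obtain ⟨i, hi⟩ := nonempty_iff_ne_empty.2 hQ0
            have := mem_powerset.1 hQ1 hi
            rw [← hh, mem_sdiff] at this
            exact this.2 hi
          congr 1
          exact if_neg hne
      have h3 := hth.2.1 s t
      rw [h1] at h2
      change (if (univ : Finset (Fin k)) = univ then τ.Th Γ x0 x' else _) (s * t) =
        (if (univ : Finset (Fin k)) = univ then τ.Th Γ x0 x' else _) s + _
      rw [if_pos rfl, h3, ← h2, map_sum]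
      congr 1
      apply sum_congr rfl
      intro T' _
      rw [map_smul]
      congr 2
      by_cases hT' : univ \ T' = univ
      · rw [hT']
        change (if upF univ = univ.erase none then τ.Th Γ x0 x' t else _) =
          (if (univ : Finset (Fin k)) = univ then τ.Th Γ x0 x' else _) t
        rw [if_pos UniInst_upF_univ, if_pos rfl]
      · change (if upF (univ \ T') = univ.erase none then τ.Th Γ x0 x' t else
          PhiC S k (τ.fam x0 (extP x0 x') 0) (upF (univ \ T')) t) =
          (if univ \ T' = univ then τ.Th Γ x0 x' else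
            PhiC S k (τ.fam x0 (extP x0 x') 0) (upF (univ \ T'))) t
        rw [if_neg hT', if_neg]
        intro hh
        rw [← UniInst_upF_univ] at hh
        exact hT' (UniInst_upF_inj hh)
    · have hc : (upF T).card ≤ k := by
        rw [UniInst_upF_card]
        have h4 : T.card < k := by
          have := card_lt_card (ssubset_univ_iff.2 hT)
          rwa [card_univ, Fintype.card_fin] at this
        omega
      have h1 := phiC_mul hS (chi0 := Γ.chi x0) (UniInst_star hτ h)
        (fun P hP s t => (UniInst_sel hτ h hP).coc s t) (UniInst_upF_sub T) hc s t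
      have h2 := UniInst_sum (Γ.del x0 (extP x0 x'))
        (fun R => PhiC S k (τ.fam x0 (extP x0 x') 0) R t)
        (fun R hR hn => UniInst_zero hS hτ hσ h hR hn t) T s
      rw [h2] at h1
      have h3 : ∀ u, (τ.UU Γ x0 x').Phi T u =
          PhiC S k (τ.fam x0 (extP x0 x') 0) (upF T) u := by
        intro u
        change (if T = univ then τ.Th Γ x0 x' else _) u = _
        rw [if_neg hT]
      rw [h3, h3, h1, map_sum]
      congr 1
      apply sum_congr rfl
      intro T' _
      rw [map_smul]
      congr 2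
      have h5 : T \ T' ≠ univ := by
        intro hh
        apply hT
        apply eq_univ_of_forall
        intro i
        have := mem_univ i
        rw [← hh] at this
        exact (mem_sdiff.1 this).1
      change _ = (if T \ T' = univ then τ.Th Γ x0 x' else _) t
      rw [if_neg h5]

private theorem UniInst_tf (hS : S.Ok) (hΓ : Γ.Ok) (hτ : τ.Ok Γ k)
    (h : τ.FG Γ x0 x') (T : Finset (Fin k)) : S.TF ((τ.UU Γ x0 x').Phi T) := by
  change S.TF (if T = univ then τ.Th Γ x0 x' else
    PhiC S k (τ.fam x0 (extP x0 x') 0) (upF T))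
  by_cases hT : T = univ
  · rw [if_pos hT]
    exact (exists_isTh hS hΓ hτ h).1
  · rw [if_neg hT]
    exact phiC_tf hS fun T' hT' => (UniInst_sel hτ h (hT'.trans (UniInst_upF_sub T))).tf

/-- (u1) -/
theorem UU_tf (hS : S.Ok) (hΓ : Γ.Ok) (hτ : τ.Ok Γ k) (h : τ.FG Γ x0 x') : ∃ N ∈ S.NN, ∀ s, ∀ n ∈ N,
      (∀ i, (τ.UU Γ x0 x').dl i (s * n) = (τ.UU Γ x0 x').dl i s) ∧
      ∀ T, (τ.UU Γ x0 x').Phi T (s * n) = (τ.UU Γ x0 x').Phi T s := by
  obtain ⟨N, hN, h1⟩ := tf_family hS (univ : Finset (Fin k)) (τ.UU Γ x0 x').dl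
    (fun i _ => (Grid.del_hom hS hΓ x0 (extP x0 x') (some (some i))).1)
  obtain ⟨N', hN', h2⟩ := tf_family hS (univ : Finset (Finset (Fin k))) (τ.UU Γ x0 x').Phi
    (fun T _ => UniInst_tf hS hΓ hτ h T)
  exact ⟨N ⊓ N', hS.inf_mem N hN N' hN', fun s n hn =>
    ⟨fun i => h1 i (mem_univ _) s n hn.1, fun T => h2 T (mem_univ _) s n hn.2⟩⟩

/-- (u2) -/
theorem UU_empty (hτ : τ.Ok Γ k) (hS : S.Ok) (hk : 1 ≤ k) {e : V1}
    (he : (τ.c 0).2 (some none) = e) (h : τ.FG Γ x0 x') (s : G) :
    (τ.UU Γ x0 x').Phi ∅ s =
      Γ.be (some none) (x0 (some none)) e s + Γ.be (some none) (x' none) e s := by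
  have hne : (∅ : Finset (Fin k)) ≠ univ := by
    intro hh
    have : (⟨0, hk⟩ : Fin k) ∈ (∅ : Finset (Fin k)) := by
      rw [hh]
      exact mem_univ _
    exact absurd this (notMem_empty _)
  have hup : upF (∅ : Finset (Fin k)) = {some none} := by
    unfold upF
    rw [map_empty]
    rfl
  have h1 : (τ.UU Γ x0 x').Phi ∅ s =
      PhiC S k (τ.fam x0 (extP x0 x') 0) {some none} s := by
    change (if (∅ : Finset (Fin k)) = univ then τ.Th Γ x0 x' else
      PhiC S k (τ.fam x0 (extP x0 x') 0) (upF ∅)) s = _
    rw [if_neg hne, hup]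
  have hbase : ∀ T : Finset (Option (Option (Fin k))), T ⊆ univ.erase none →
      (2 : ℕ) ^ (k - 1) • τ.fam x0 (extP x0 x') 0 T s =
        S.iota (Γ.ch (τ.c 0) (SmA.mix T x0 (extP x0 x')) s) := by
    intro T hT
    have h2 := hτ.base _ (h.2.1 T hT).1 0 s
    rw [hτ.jl_zero] at h2
    exact h2
  rw [h1]
  unfold PhiC
  rw [← insert_empty_eq (some none : Option (Option (Fin k))), alt_insert (notMem_empty _),
    alt_empty, alt_empty, insert_empty_eq, card_singleton,
    hbase ∅ (empty_subset _), hbase {some none} (singleton_subset_iff.2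
      (mem_erase.2 ⟨by simp, mem_univ _⟩)), ← map_sub, Sys.un_iota hS, Grid.ch_mix,
    Grid.ch_mix]
  unfold bC
  rw [sum_empty, sum_singleton, add_zero, sub_add_cancel_left, V1_neg]
  unfold Grid.dbe
  rw [he]
  rfl

/-- (u3) -/
theorem UU_sg (hS : S.Ok) (hΓ : Γ.Ok) (hτ : τ.Ok Γ k) (hσ : τ.sig 0 = {some none})
    (h : τ.FG Γ x0 x') {v : Pl} (hv : v ∉ Γ.bad)
    (h0 : ∀ i, v ≠ Γ.pl (some i) (x0 (some i))) (h1 : ∀ i, v ≠ Γ.pl (some i) (x' i)) :
    (∀ i, (τ.UU Γ x0 x').dl i (S.sg v) = 0) ∧ ∀ T, (τ.UU Γ x0 x').Phi T (S.sg v) = 0 := by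
  have hdl : ∀ i, (τ.UU Γ x0 x').dl i (S.sg v) = 0 := fun i => by
    change Γ.th (some (some i)) (x0 (some (some i))) (S.sg v) +
      Γ.th (some (some i)) (x' (some i)) (S.sg v) = 0
    rw [hΓ.th_unr _ _ v hv (h0 (some i)), hΓ.th_unr _ _ v hv (h1 (some i)), add_zero]
  have hth := exists_isTh hS hΓ hτ h
  have hIs := UU_is hS hΓ hτ hσ h
  refine ⟨hdl, fun T => ?_⟩
  by_cases hv0 : v = Γ.pl none (x0 none)
  · -- the place of the last coordinate of `x0`
    subst hv0
    have hsgx : ∀ T, (τ.UU Γ x0 x').Phi T (Γ.sgx none (x0 none)) = 0 := by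
      intro T
      by_cases hT : T = univ
      · change (if T = univ then τ.Th Γ x0 x' else _) (Γ.sgx none (x0 none)) = 0
        rw [if_pos hT]
        have h2 := hth.2.2 _ (Grid.pl_good hΓ none (x0 none))
        have h3 := Grid.cg_sg hΓ (FG_sep h) none false
        change (S.conj (Γ.cg x0 (extP x0 x'))).sg (Γ.pl none (x0 none)) =
          Γ.sgx none (x0 none) at h3
        rwa [h3] at h2
      · change (if T = univ then τ.Th Γ x0 x' else
          PhiC S k (τ.fam x0 (extP x0 x') 0) (upF T)) (Γ.sgx none (x0 none)) = 0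
        rw [if_neg hT]
        have hRne : (upF T).Nonempty := ⟨some none, mem_insert_self _ _⟩
        refine phiC_sg hS hRne (c := τ.psi x0 0 (Γ.sgx none (x0 none))) ?_
        intro T' hT'
        have hT'W := hT'.trans (UniInst_upF_sub T)
        have h2 := h.2.1 T' hT'W
        have h3 : x0 ∈ τ.Y := by
          have h4 := (h.2.1 ∅ (empty_subset _)).1
          rwa [SmA.mix_empty] at h4
        have hnone : SmA.mix T' x0 (extP x0 x') none = x0 none := by
          apply mix_notMem
          intro hc
          exact absurd rfl (mem_erase.1 (hT'W hc)).1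
        have h5 := hτ.col_sg _ h2.1 x0 h3 h2.2 0 none
        rw [hnone] at h5
        exact h5
    have hz := hIs.conj_zero (Grid.ac_sgx hS hΓ none (x0 none)) (fun i => by
      have h2 : (τ.UU Γ x0 x').dl i (Γ.sgx none (x0 none)) =
          (τ.UU Γ x0 x').dl i (S.sg (Γ.pl none (x0 none))) := hIs.dl_conj i _ _
      rw [h2]
      exact hdl i) hsgx (Γ.cj none (x0 none))⁻¹ T
    have e1 : (Γ.cj none (x0 none))⁻¹ * Γ.sgx none (x0 none) * ((Γ.cj none (x0 none))⁻¹)⁻¹ =
        S.sg (Γ.pl none (x0 none)) := by
      unfold Grid.sgx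
      group
    rwa [e1] at hz
  · by_cases hT : T = univ
    · change (if T = univ then τ.Th Γ x0 x' else _) (S.sg v) = 0
      rw [if_pos hT]
      have h2 := hth.2.2 v (hΓ.bad_good _ hv)
      rwa [Grid.cg_sg_off] at h2
      intro i e hc
      cases i with
      | none =>
        apply hv0
        rw [hc]
        cases e <;> rfl
      | some i =>
        cases e with
        | false => exact h0 i hc
        | true => exact h1 i hc
    · change (if T = univ then τ.Th Γ x0 x' else
        PhiC S k (τ.fam x0 (extP x0 x') 0) (upF T)) (S.sg v) = 0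
      rw [if_neg hT]
      have hRne : (upF T).Nonempty := ⟨some none, mem_insert_self _ _⟩
      refine phiC_sg hS hRne (c := 0) ?_
      intro T' hT'
      have hT'W := hT'.trans (UniInst_upF_sub T)
      have hsel := hτ.sel _ (h.2.1 T' hT'W).1 0
      refine sel_sg_off hS hΓ hsel hv ?_
      intro m
      rcases m with _ | i
      · have hnone : SmA.mix T' x0 (extP x0 x') none = x0 none := by
          apply mix_notMem
          intro hc
          exact absurd rfl (mem_erase.1 (hT'W hc)).1
        rw [hnone]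
        exact hv0
      · by_cases hi : some i ∈ T'
        · rw [mix_mem x0 (extP x0 x') hi]
          exact h1 i
        · rw [mix_notMem x0 (extP x0 x') hi]
          exact h0 i

end Pool.Agent.SmNH
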